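import Mathlib

/-!
The difference `i_h(G) - i_bn(G)` is unbounded on connected graphs.
-/

namespace Pool.Agent.Results.MP_511249_co.Unbounded

open SimpleGraph Finset

section defs

variable {V : Type} [Fintype V]

/-- The eccentricity of a vertex. -/
noncomputable def ecc (G : SimpleGraph V) (v : V) : ℕ := univ.sup fun u => G.dist v u

/-- A broadcast on a connected graph with at least two vertices: `f v ≤ e(v)` for all `v`
(this gives `f v ≤ diam G` as well). -/
def IsBroadcast (G : SimpleGraph V) (f : V → ℕ) : Prop := ∀ v, f v ≤ ecc G v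

/-- `x` hears `f` from `v`. -/
def Hears (G : SimpleGraph V) (f : V → ℕ) (x v : V) : Prop := 0 < f v ∧ G.dist x v ≤ f v

/-- Boundary independence. -/
def BnIndep (G : SimpleGraph V) (f : V → ℕ) : Prop :=
  ∀ x, (∃ v w, v ≠ w ∧ Hears G f x v ∧ Hears G f x w) → ∀ u, 0 < f u → f u ≤ G.dist x u

/-- Hearing independence. -/
def HIndep (G : SimpleGraph V) (f : V → ℕ) : Prop :=
  ∀ u v, 0 < f u → v ≠ u → ¬ Hears G f u v

/-- `f` is a maximal broadcast with property `P`. -/
def MaximalBroadcast (G : SimpleGraph V) (P : (V → ℕ) → Prop) (f : V → ℕ) : Prop :=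
  IsBroadcast G f ∧ P f ∧ ¬ ∃ g, IsBroadcast G g ∧ P g ∧ (∀ v, f v ≤ g v) ∧ g ≠ f

/-- The minimum cost of a maximal boundary independent broadcast. -/
noncomputable def iBn (G : SimpleGraph V) : ℕ :=
  sInf {c | ∃ f, MaximalBroadcast G (BnIndep G) f ∧ ∑ v, f v = c}

/-- The minimum cost of a maximal hearing independent broadcast. -/
noncomputable def iH (G : SimpleGraph V) : ℕ :=
  sInf {c | ∃ f, MaximalBroadcast G (HIndep G) f ∧ ∑ v, f v = c}

end defs

/-- The path on `n` vertices with every vertex replaced by `n` nonadjacent twins. -/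
def Gr (n : ℕ) : SimpleGraph (Fin n × Fin n) where
  Adj u v := u.1.val + 1 = v.1.val ∨ v.1.val + 1 = u.1.val
  symm := ⟨fun _ _ h => h.symm⟩
  loopless := ⟨fun _ h => by omega⟩

variable {n : ℕ}

def D (u v : Fin n × Fin n) : ℕ :=
  if u.1.val = v.1.val then (if u.2.val = v.2.val then 0 else 2)
  else (u.1.val - v.1.val) + (v.1.val - u.1.val)

lemma ext_iff' {u v : Fin n × Fin n} : u = v ↔ u.1.val = v.1.val ∧ u.2.val = v.2.val := by
  rw [Prod.ext_iff, Fin.ext_iff, Fin.ext_iff]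

lemma walk_up (d : ℕ) : ∀ u v : Fin n × Fin n, v.1.val = u.1.val + d + 1 →
    ∃ p : (Gr n).Walk u v, p.length = d + 1 := by
  induction d with
  | zero => exact fun u v h => ⟨Walk.cons (Or.inl (by omega)) Walk.nil, rfl⟩
  | succ d ih =>
    intro u v h
    have hv := v.1.isLt
    obtain ⟨p, hp⟩ := ih (⟨u.1.val + 1, by omega⟩, u.2) v (by simp only; omega)
    exact ⟨Walk.cons (Or.inl rfl) p, by simp [hp]⟩

lemma exists_walk (hn : 2 ≤ n) (u v : Fin n × Fin n) :
    ∃ p : (Gr n).Walk u v, p.length = D u v := by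
  unfold D
  split_ifs with h1 h2
  · obtain rfl : u = v := ext_iff'.2 ⟨h1, h2⟩
    exact ⟨Walk.nil, rfl⟩
  · have hu := u.1.isLt
    by_cases h : u.1.val + 1 < n
    · exact ⟨Walk.cons (v := (⟨u.1.val + 1, h⟩, u.2)) (Or.inl rfl)
        (Walk.cons (Or.inr (by simp only; omega)) Walk.nil), rfl⟩
    · exact ⟨Walk.cons (v := (⟨u.1.val - 1, by omega⟩, u.2)) (Or.inr (by simp only; omega))
        (Walk.cons (Or.inl (by simp only; omega)) Walk.nil), rfl⟩
  · by_cases h : u.1.val < v.1.val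
    · obtain ⟨p, hp⟩ := walk_up (v.1.val - u.1.val - 1) u v (by omega)
      exact ⟨p, by omega⟩
    · obtain ⟨p, hp⟩ := walk_up (u.1.val - v.1.val - 1) v u (by omega)
      exact ⟨p.reverse, by rw [Walk.length_reverse]; omega⟩

lemma D_le {u v : Fin n × Fin n} (p : (Gr n).Walk u v) : D u v ≤ p.length := by
  induction p with
  | nil => simp [D]
  | cons h p ih =>
    rw [Walk.length_cons]
    have h' : _ ∨ _ := h
    unfold D at ih ⊢
    split_ifs at ih ⊢ <;> omega

lemma dist_eq (hn : 2 ≤ n) (u v : Fin n × Fin n) : (Gr n).dist u v = D u v := by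
  obtain ⟨p, hp⟩ := exists_walk hn u v
  refine le_antisymm (hp ▸ dist_le p) ?_
  obtain ⟨q, hq⟩ := p.reachable.exists_walk_length_eq_dist
  exact hq ▸ D_le q

lemma conn (hn : 2 ≤ n) : (Gr n).Connected := by
  have : Nonempty (Fin n × Fin n) := ⟨(⟨0, by omega⟩, ⟨0, by omega⟩)⟩
  exact ⟨fun u v => (exists_walk hn u v).elim fun p _ => p.reachable⟩

lemma D_le_ecc (hn : 2 ≤ n) (u v : Fin n × Fin n) : D u v ≤ ecc (Gr n) u := by
  rw [← dist_eq hn]
  exact le_sup (f := fun w => (Gr n).dist u w) (mem_univ v)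

lemma two_le_ecc (hn : 2 ≤ n) (u : Fin n × Fin n) : 2 ≤ ecc (Gr n) u := by
  by_cases h : u.2.val = 0
  · have := D_le_ecc hn u (u.1, ⟨1, by omega⟩)
    simp only [D, h] at this
    simpa using this
  · have := D_le_ecc hn u (u.1, ⟨0, by omega⟩)
    simp only [D, h] at this
    simpa using this

lemma ecc_large (hn : 2 ≤ n) (u : Fin n × Fin n) : n ≤ 2 * ecc (Gr n) u + 1 := by
  have h1 := D_le_ecc hn u (⟨0, by omega⟩, u.2)
  have h2 := D_le_ecc hn u (⟨n - 1, by omega⟩, u.2)
  have := u.1.isLt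
  simp only [D] at h1 h2
  split_ifs at h1 h2 <;> omega

/-! ### Hearing independent broadcasts are expensive -/

lemma exists_maxH (hn : 2 ≤ n) : ∃ f, MaximalBroadcast (Gr n) (HIndep (Gr n)) f := by
  let z : Fin n × Fin n := (⟨0, by omega⟩, ⟨0, by omega⟩)
  have hz := two_le_ecc hn z
  refine ⟨fun v => if v = z then ecc (Gr n) z else 0, fun v => ?_, fun u v hu hv h => ?_, ?_⟩
  · dsimp only
    split_ifs with h
    · rw [h]
    · exact Nat.zero_le _
  · have h1 := h.1
    dsimp only at hu h1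
    split_ifs at hu h1 with a b
    · exact hv (b.trans a.symm)
    all_goals omega
  · rintro ⟨g, hb, hi, hle, hne⟩
    apply hne
    funext v
    have hgz := hle z
    simp only [if_true] at hgz
    split_ifs with h
    · rw [h]
      exact le_antisymm (hb z) hgz
    · by_contra h0
      refine hi v z (by omega) (Ne.symm h) ⟨by omega, ?_⟩
      rw [dist_comm, dist_eq hn]
      exact (D_le_ecc hn z v).trans hgz

lemma maxH_step (hn : 2 ≤ n) {f : Fin n × Fin n → ℕ}
    (hf : MaximalBroadcast (Gr n) (HIndep (Gr n)) f) (w : Fin n × Fin n)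
    (hw : f w < ecc (Gr n) w) :
    ∃ u, u ≠ w ∧ 0 < f u ∧ (D u w ≤ f w + 1 ∨ D w u ≤ f u) := by
  by_contra hcon
  push Not at hcon
  refine hf.2.2 ⟨Function.update f w (f w + 1), fun v => ?_, fun u v hu hv h => ?_, fun v => ?_,
    fun h => ?_⟩
  · by_cases e : v = w
    · subst e; simpa using hw
    · rw [Function.update_of_ne e]; exact hf.1 v
  · obtain ⟨h1, h2⟩ := h
    rw [dist_eq hn] at h2
    by_cases e : v = w
    · subst e
      rw [Function.update_of_ne hv.symm] at hu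
      rw [Function.update_self] at h2
      have := (hcon u hv.symm hu).1
      omega
    · rw [Function.update_of_ne e] at h1 h2
      by_cases e' : u = w
      · subst e'
        have := (hcon v hv h1).2
        omega
      · rw [Function.update_of_ne e'] at hu
        exact hf.2.1 u v hu hv ⟨h1, by rwa [dist_eq hn]⟩
  · by_cases e : v = w
    · subst e; simp
    · rw [Function.update_of_ne e]
  · have := congrFun h w
    simp at this

lemma D_comm (u v : Fin n × Fin n) : D u v = D v u := by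
  unfold D
  split_ifs <;> omega

lemma maxH_cost (hn : 2 ≤ n) {f : Fin n × Fin n → ℕ}
    (hf : MaximalBroadcast (Gr n) (HIndep (Gr n)) f) : n ≤ 2 * ∑ v, f v + 1 := by
  have hind : ∀ u v, 0 < f u → 0 < f v → v ≠ u → f v < D u v := by
    intro u v hu hv hne
    by_contra h
    exact hf.2.1 u v hu hne ⟨hv, by rw [dist_eq hn]; omega⟩
  have hdom : ∀ w, f w = 0 → ∃ u, u ≠ w ∧ 0 < f u ∧ D w u ≤ f u := by
    intro w hw
    obtain ⟨u, h1, h2, h3⟩ := maxH_step hn hf w (by have := two_le_ecc hn w; omega)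
    refine ⟨u, h1, h2, ?_⟩
    rw [D_comm u w] at h3
    omega
  by_cases c1 : ∃ v, f v = 1
  · obtain ⟨v, hv⟩ := c1
    have hall : ∀ b : Fin n, 1 ≤ f (v.1, b) := by
      intro b
      by_contra h0
      obtain ⟨u, h1, h2, h3⟩ := hdom (v.1, b) (by omega)
      have h1' := mt ext_iff'.2 h1
      by_cases e : u = v
      · subst e
        simp only [D, true_and, if_true] at h3 h1'
        split_ifs at h3 <;> omega
      · have h4 := hind v u (by omega) h2 e
        simp only [D] at h3 h4 h1'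
        split_ifs at h3 h4 <;> omega
    have h1 : ∑ b : Fin n, 1 ≤ ∑ b : Fin n, f (v.1, b) := sum_le_sum fun b _ => hall b
    have h2 : ∑ b : Fin n, f (v.1, b) ≤ ∑ w, f w := by
      rw [Fintype.sum_prod_type]
      exact single_le_sum (f := fun a => ∑ b : Fin n, f (a, b)) (fun _ _ => Nat.zero_le _)
        (mem_univ v.1)
    simp only [sum_const, card_univ, Fintype.card_fin, smul_eq_mul, mul_one] at h1
    omega
  push Not at c1
  by_cases c2 : ∃ v, ecc (Gr n) v ≤ f v
  · obtain ⟨v, hv⟩ := c2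
    have h1 := ecc_large hn v
    have h2 : f v ≤ ∑ w, f w := single_le_sum (fun _ _ => Nat.zero_le _) (mem_univ v)
    omega
  push Not at c2
  have hpart : ∀ u, ∃ v, 0 < f u → 2 ≤ f v ∧
      (v.1.val = u.1.val + f u + 1 ∨ u.1.val = v.1.val + f u + 1) := by
    intro u
    by_cases hu : 0 < f u
    · obtain ⟨v, h1, h2, h3⟩ := maxH_step hn hf u (c2 u)
      have h4 := hind u v hu h2 h1
      have h5 := hind v u h2 hu h1.symm
      have h6 := c1 u
      have h7 := c1 v
      refine ⟨v, fun _ => ⟨by omega, ?_⟩⟩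
      simp only [D] at h3 h4 h5
      split_ifs at h3 h4 h5 <;> omega
    · exact ⟨u, fun h => absurd h hu⟩
  choose q hq using hpart
  let R : Fin n × Fin n → Finset ℕ := fun u =>
    if u.1.val < (q u).1.val then Finset.Ico (u.1.val - f u) (u.1.val + f u)
    else Finset.Ico (u.1.val + 1 - f u) (u.1.val + f u + 1)
  have hR : ∀ u, 0 < f u → #(R u) ≤ 2 * f u := by
    intro u hu
    simp only [R]
    split_ifs <;> rw [Nat.card_Ico] <;> omega
  have hmem : ∀ u (p : ℕ), 0 < f u → u.1.val < p + f u → p < u.1.val + f u → p ∈ R u := by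
    intro u p _ h1 h2
    simp only [R]
    split_ifs <;> rw [Finset.mem_Ico] <;> omega
  have hcov : range n ⊆ (univ.filter fun u => 0 < f u).biUnion R := by
    intro p hp
    rw [mem_range] at hp
    rw [mem_biUnion]
    obtain ⟨u, hu, h1, h2⟩ : ∃ u, 0 < f u ∧ u.1.val ≤ p + f u ∧ p ≤ u.1.val + f u := by
      by_cases h0 : f (⟨p, hp⟩, ⟨0, by omega⟩) = 0
      · obtain ⟨u, -, k2, k3⟩ := hdom _ h0
        refine ⟨u, k2, ?_⟩
        simp only [D] at k3
        split_ifs at k3 <;> omega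
      · exact ⟨(⟨p, hp⟩, ⟨0, by omega⟩), by omega, by simp, by simp⟩
    obtain ⟨k1, k2⟩ := hq u hu
    by_cases hin : p ∈ R u
    · exact ⟨u, by simpa using hu, hin⟩
    · refine ⟨q u, by simp only [mem_filter, mem_univ, true_and]; omega, ?_⟩
      simp only [R] at hin
      split_ifs at hin <;> rw [Finset.mem_Ico] at hin <;> exact hmem _ _ (by omega) (by omega)
        (by omega)
  have h1 := (card_le_card hcov).trans card_biUnion_le
  rw [card_range] at h1
  have h2 : ∑ u ∈ univ.filter (fun u => 0 < f u), #(R u) ≤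
      ∑ u ∈ univ.filter (fun u => 0 < f u), 2 * f u :=
    sum_le_sum fun u hu => hR u (mem_filter.1 hu).2
  have h3 : ∑ u ∈ univ.filter (fun u => 0 < f u), 2 * f u ≤ ∑ u, 2 * f u :=
    sum_le_sum_of_subset (filter_subset _ _)
  rw [← mul_sum] at h3
  rw [← mul_sum] at h2
  rw [← mul_sum] at h3
  omega

lemma iH_ge (hn : 2 ≤ n) : n ≤ 2 * iH (Gr n) + 1 := by
  obtain ⟨f, hf⟩ := exists_maxH hn
  obtain ⟨g, hg, hc⟩ := Nat.sInf_mem (s := {c | ∃ f, MaximalBroadcast (Gr n) (HIndep (Gr n)) f ∧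
    ∑ v, f v = c}) ⟨_, f, hf, rfl⟩
  unfold iH
  rw [← hc]
  exact maxH_cost hn hg

/-! ### A cheap maximal boundary independent broadcast -/

def F (n : ℕ) (v : Fin n × Fin n) : ℕ :=
  if v.2.val = 0 ∧ (v.1.val % 9 = 2 ∨ v.1.val % 9 = 6) then 2 else 0

lemma F_pos {v : Fin n × Fin n} (h : 0 < F n v) :
    F n v = 2 ∧ v.2.val = 0 ∧ (v.1.val % 9 = 2 ∨ v.1.val % 9 = 6) := by
  unfold F at h ⊢
  split_ifs at h ⊢ with c
  · exact ⟨rfl, c⟩
  · omega

lemma F_max {m : ℕ} (hm : 1 ≤ m) :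
    MaximalBroadcast (Gr (9 * m)) (BnIndep (Gr (9 * m))) (F (9 * m)) := by
  have hn : 2 ≤ 9 * m := by omega
  refine ⟨fun v => le_trans (by unfold F; split_ifs <;> omega) (two_le_ecc hn v), ?_, ?_⟩
  · rintro x ⟨v, w, hvw, ⟨h1, h2⟩, h3, h4⟩ u hu
    obtain ⟨a1, a2, a3⟩ := F_pos h1
    obtain ⟨b1, b2, b3⟩ := F_pos h3
    obtain ⟨c1, c2, c3⟩ := F_pos hu
    have hne := mt ext_iff'.2 hvw
    rw [dist_eq hn] at h2 h4 ⊢
    rw [a1] at h2
    rw [b1] at h4
    rw [c1]
    simp only [D] at h2 h4 ⊢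
    split_ifs at h2 h4 ⊢ <;> omega
  · rintro ⟨g, -, hi, hle, hne⟩
    obtain ⟨w, hw⟩ : ∃ w, F (9 * m) w < g w := by
      by_contra h
      push Not at h
      exact hne (funext fun v => le_antisymm (h v) (hle v))
    have hwl := w.1.isLt
    have hF : ∀ (p : ℕ) (hp : p < 9 * m), (p % 9 = 2 ∨ p % 9 = 6) →
        2 ≤ g (⟨p, hp⟩, ⟨0, by omega⟩) := by
      intro p hp h
      have := hle (⟨p, hp⟩, ⟨0, by omega⟩)
      simpa [F, h] using this
    by_cases h0 : 0 < F (9 * m) w
    · obtain ⟨a1, a2, a3⟩ := F_pos h0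
      obtain ⟨p, x, hp, hx, k1, k2⟩ : ∃ p x : ℕ, p < 9 * m ∧ x < 9 * m ∧ (p % 9 = 2 ∨ p % 9 = 6) ∧
          ((x = w.1.val + 2 ∧ p = w.1.val + 4) ∨ (x + 2 = w.1.val ∧ p + 4 = w.1.val)) := by
        rcases a3 with a3 | a3
        · exact ⟨w.1.val + 4, w.1.val + 2, by omega, by omega, by omega, by omega⟩
        · exact ⟨w.1.val - 4, w.1.val - 2, by omega, by omega, by omega, by omega⟩
      have h2 := hF p hp k1
      have e1 : (Gr (9 * m)).dist (⟨x, hx⟩, ⟨0, by omega⟩) w = 2 := by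
        rw [dist_eq hn]
        simp only [D]
        split_ifs <;> omega
      have e2 : (Gr (9 * m)).dist (⟨x, hx⟩, ⟨0, by omega⟩) (⟨p, hp⟩, ⟨0, by omega⟩) = 2 := by
        rw [dist_eq hn]
        simp only [D]
        split_ifs <;> omega
      have := hi (⟨x, hx⟩, ⟨0, by omega⟩) ⟨w, (⟨p, hp⟩, ⟨0, by omega⟩),
        fun h => by have := (ext_iff'.1 h).1; simp only at this; omega,
        ⟨by omega, by omega⟩, ⟨by omega, by omega⟩⟩ w (by omega)
      omega
    · obtain ⟨p, hp, k1, k2, k3⟩ : ∃ p : ℕ, p < 9 * m ∧ (p % 9 = 2 ∨ p % 9 = 6) ∧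
          p ≤ w.1.val + 2 ∧ w.1.val ≤ p + 2 := by
        by_cases c : w.1.val % 9 ≤ 4
        · exact ⟨9 * (w.1.val / 9) + 2, by omega, by omega, by omega, by omega⟩
        · exact ⟨9 * (w.1.val / 9) + 6, by omega, by omega, by omega, by omega⟩
      have h2 := hF p hp k1
      have e1 : (Gr (9 * m)).dist w (⟨p, hp⟩, ⟨0, by omega⟩) ≤ 2 := by
        rw [dist_eq hn]
        simp only [D]
        split_ifs <;> omega
      have := hi w ⟨w, (⟨p, hp⟩, ⟨0, by omega⟩),
        fun h => by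
          apply h0
          rw [h]
          simp [F, k1],
        ⟨by omega, by simp⟩, ⟨by omega, by omega⟩⟩ w (by omega)
      rw [dist_self] at this
      omega

lemma sum_range_F (m : ℕ) :
    ∑ i ∈ range (9 * m), (if i % 9 = 2 ∨ i % 9 = 6 then 2 else 0) = 4 * m := by
  induction m with
  | zero => simp
  | succ m ih =>
    rw [show 9 * (m + 1) = 9 * m + 9 by ring, sum_range_add, ih]
    have : ∀ i, (9 * m + i) % 9 = i % 9 := fun i => by omega
    simp only [this]
    have : ∑ i ∈ range 9, (if i % 9 = 2 ∨ i % 9 = 6 then 2 else 0) = 4 := by decide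
    omega

lemma F_cost {m : ℕ} (hm : 1 ≤ m) : ∑ v, F (9 * m) v = 4 * m := by
  rw [Fintype.sum_prod_type, ← sum_range_F m, ← Fin.sum_univ_eq_sum_range
    (fun i => if i % 9 = 2 ∨ i % 9 = 6 then 2 else 0)]
  refine sum_congr rfl fun i _ => ?_
  rw [sum_eq_single (⟨0, by omega⟩ : Fin (9 * m))]
  · simp [F]
  · intro b _ hb
    have : b.val ≠ 0 := fun h => hb (Fin.ext h)
    simp [F, this]
  · simp

/-- For every `k` there is a connected graph `G` with at least two vertices and
`i_h(G) - i_bn(G) ≥ k`. -/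
theorem result (k : ℕ) : ∃ (V : Type) (_ : Fintype V) (G : SimpleGraph V),
    2 ≤ Fintype.card V ∧ G.Connected ∧
    (∃ f, MaximalBroadcast G (BnIndep G) f) ∧ (∃ f, MaximalBroadcast G (HIndep G) f) ∧
    iBn G + k ≤ iH G := by
  have hn : 2 ≤ 9 * (2 * k + 1) := by omega
  have hm : 1 ≤ 2 * k + 1 := by omega
  refine ⟨_, inferInstance, Gr (9 * (2 * k + 1)), ?_, conn hn, ⟨_, F_max hm⟩, exists_maxH hn, ?_⟩
  · simp only [Fintype.card_prod, Fintype.card_fin]
    nlinarith
  · have h1 : iBn (Gr (9 * (2 * k + 1))) ≤ 4 * (2 * k + 1) :=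
      Nat.sInf_le ⟨_, F_max hm, F_cost hm⟩
    have h2 := iH_ge hn
    omega

end Pool.Agent.Results.MP_511249_co.Unbounded
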